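import Pool.Agent.W294.MZ.ExM
import Pool.Agent.W505.MZ.ExB

/-!
# Deformation rings of inflated representations

If `π : G' → G` is a surjective quotient map of topological groups and `(R, ρu)`, `(R', ρu')` are
universal for `ρbar` and `ρbar ∘ π`, then the natural map `R' → R` is surjective.
-/

set_option autoImplicit false

namespace Pool.Agent.Y808.MZD

open IsLocalRing MZ MZEX Matrix Topology

variable {p : ℕ} [Fact p.Prime] {k : Type} [Field k] [CharP k p]

/-- quotients of coefficient rings -/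
theorem exists_quot (A : CNL p k) (I : Ideal A.A) (hI : I ≤ maximalIdeal A.A) :
    ∃ (Q : CNL p k) (q : A.A →ₐ[WittVector p k] Q.A), Function.Surjective q ∧
      (∀ x, q x = 0 ↔ x ∈ I) ∧ (∀ x, Q.res (q x) = A.res x) ∧
      (∀ (j : ℕ) (x : A.A), x ∈ maximalIdeal A.A ^ j → q x ∈ maximalIdeal Q.A ^ j) ∧
      ∀ (B : CNL p k) (f : A.A →ₐ[WittVector p k] B.A), (∀ x ∈ I, f x = 0) →
        ∃ g : Q.A →ₐ[WittVector p k] B.A, ∀ x, g (q x) = f x := by
  have hne : I ≠ ⊤ := by
    intro h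
    exact (IsLocalRing.maximalIdeal.isMaximal A.A).ne_top (top_le_iff.1 (h ▸ hI))
  obtain ⟨h1, h2, h3⟩ := Pool.Agent.W505.MZ.ExB.main A.A I hne
  have hres : ∀ a : A.A, a ∈ I → A.res a = 0 := fun a ha => (mem_max_iff A a).1 (hI ha)
  let Q : CNL p k :=
    { A := A.A ⧸ I
      isLocal := h1
      complete := h2
      res := Ideal.Quotient.lift I A.res hres
      res_surj := by
        intro c
        obtain ⟨a, ha⟩ := A.res_surj c
        exact ⟨Ideal.Quotient.mk I a, by rw [Ideal.Quotient.lift_mk, ha]⟩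
      res_coeff := by
        intro x
        have : algebraMap (WittVector p k) (A.A ⧸ I) x =
          Ideal.Quotient.mk I (algebraMap (WittVector p k) A.A x) := rfl
        rw [this, Ideal.Quotient.lift_mk, A.res_coeff] }
  refine ⟨Q, Ideal.Quotient.mkₐ (WittVector p k) I, Ideal.Quotient.mkₐ_surjective _ _, ?_, ?_, ?_, ?_⟩
  · intro x
    exact Ideal.Quotient.eq_zero_iff_mem
  · intro x
    exact Ideal.Quotient.lift_mk I A.res hres
  · intro j x hx
    have h4 : maximalIdeal Q.A ^ j = (maximalIdeal A.A ^ j).map (Ideal.Quotient.mk I) := h3 j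
    rw [h4]
    exact Ideal.mem_map_of_mem _ hx
  · intro B f hf
    exact ⟨Ideal.Quotient.liftₐ I f hf, fun x => rfl⟩

variable {G G' : Type} [Group G] [TopologicalSpace G] [IsTopologicalGroup G]
  [Group G'] [TopologicalSpace G'] [IsTopologicalGroup G'] {n : ℕ}

theorem map_val {A B : Type} [CommRing A] [CommRing B] (f : A →+* B) (M : GL (Fin n) A) (a b : Fin n) :
    (Matrix.GeneralLinearGroup.map f M : Matrix (Fin n) (Fin n) B) a b =
      f ((M : Matrix (Fin n) (Fin n) A) a b) := rfl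

omit [TopologicalSpace G] [IsTopologicalGroup G] in
/-- strict equivalence is preserved by maps of coefficient rings -/
theorem strict_map {A B : CNL p k} (f : A.A →ₐ[WittVector p k] B.A) (hf : ∀ x, B.res (f x) = A.res x)
    {ρ ρ' : G →* GL (Fin n) A.A} (h : StrictEquiv A ρ ρ') :
    StrictEquiv B ((Matrix.GeneralLinearGroup.map (f : A.A →+* B.A)).comp ρ)
      ((Matrix.GeneralLinearGroup.map (f : A.A →+* B.A)).comp ρ') := by
  obtain ⟨M, hM, h⟩ := h
  refine ⟨Matrix.GeneralLinearGroup.map (f : A.A →+* B.A) M, ?_, fun g => ?_⟩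
  · rw [← hM]
    ext a b
    simp only [map_val]
    exact hf _
  · simp only [MonoidHom.comp_apply]
    rw [h g, map_mul, map_mul, map_inv]

/-- the natural map of universal deformation rings is surjective -/
theorem surj (π : G' →* G) (hπ : Function.Surjective π) (hq : IsQuotientMap π)
    (ρbar : G →* GL (Fin n) k) (R : CNL p k) (ρu : G →* GL (Fin n) R.A) (hu : IsUniversal ρbar R ρu)
    (R' : CNL p k) (ρu' : G' →* GL (Fin n) R'.A) (hu' : IsUniversal (ρbar.comp π) R' ρu') :
    ∃ f : R'.A →ₐ[WittVector p k] R.A, Function.Surjective f := by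
  -- the inflation of the universal lift
  have hinf : IsLift (ρbar.comp π) R (ρu.comp π) :=
    ⟨fun g => hu.1.1 (π g), fun j => (hu.1.2 j).preimage hq.continuous⟩
  obtain ⟨f, ⟨hf1, hf2⟩, -⟩ := hu'.2 R (ρu.comp π) hinf
  -- the ideal
  set I : Ideal R'.A := Ideal.span {x | ∃ g ∈ π.ker, ∃ a b : Fin n,
    x = ((ρu' g : Matrix (Fin n) (Fin n) R'.A) - 1) a b} with hI
  have hI0 : I ≤ maximalIdeal R'.A := by
    rw [hI, Ideal.span_le]
    rintro x ⟨g, hg, a, b, rfl⟩
    have h1 : Matrix.GeneralLinearGroup.map R'.res (ρu' g) = 1 := by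
      rw [hu'.1.1 g, MonoidHom.comp_apply, MonoidHom.mem_ker.1 hg, map_one]
    exact ((map_one_iff R' (ρu' g)).2 h1) a b
  obtain ⟨Q, q, hqs, hq0, hqr, hqj, hqf⟩ := exists_quot R' I hI0
  -- the representation over `Q`
  set ρQ : G' →* GL (Fin n) Q.A := (Matrix.GeneralLinearGroup.map (q : R'.A →+* Q.A)).comp ρu' with hρQ
  have hker : ∀ g ∈ π.ker, ρQ g = 1 := by
    intro g hg
    ext a b
    have h1 : ((ρu' g : Matrix (Fin n) (Fin n) R'.A) - 1) a b ∈ I :=
      Ideal.subset_span ⟨g, hg, a, b, rfl⟩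
    have h2 := (hq0 _).2 h1
    rw [Matrix.sub_apply, map_sub, sub_eq_zero] at h2
    have h3 : (ρQ g : Matrix (Fin n) (Fin n) Q.A) a b = q ((ρu' g : Matrix (Fin n) (Fin n) R'.A) a b) := rfl
    rw [h3, h2, Units.val_one]
    by_cases hab : a = b
    · subst hab; simp
    · simp [Matrix.one_apply_ne hab]
  set ρd : G →* GL (Fin n) Q.A := MonoidHom.liftOfSurjective π hπ ⟨ρQ, fun g hg => hker g hg⟩ with hρd
  have hd : ∀ g, ρd (π g) = ρQ g := fun g => MonoidHom.liftOfRightInverse_comp_apply _ _ _ _ g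
  have hlift : IsLift ρbar Q ρd := by
    constructor
    · intro g
      obtain ⟨g', rfl⟩ := hπ g
      rw [hd]
      have h1 := hu'.1.1 g'
      rw [MonoidHom.comp_apply] at h1
      rw [← h1]
      ext a b
      simp only [map_val]
      exact hqr _
    · intro j
      rw [← hq.isOpen_preimage]
      have h1 : IsOpen ((Nsub ρQ (maximalIdeal Q.A ^ j) : Subgroup G') : Set G') := by
        have h2 : Nsub ρu' (maximalIdeal R'.A ^ j) ≤ Nsub ρQ (maximalIdeal Q.A ^ j) := by
          intro g hg a b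
          have h3 := hqj j _ (hg a b)
          rw [Matrix.sub_apply, map_sub] at h3
          rw [Matrix.sub_apply]
          have h4 : (ρQ g : Matrix (Fin n) (Fin n) Q.A) a b =
            q ((ρu' g : Matrix (Fin n) (Fin n) R'.A) a b) := rfl
          have h5 : q ((1 : Matrix (Fin n) (Fin n) R'.A) a b) = (1 : Matrix (Fin n) (Fin n) Q.A) a b := by
            by_cases hab : a = b
            · subst hab; simp
            · simp [Matrix.one_apply_ne hab]
          rw [h4, ← h5]
          exact h3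
        exact Subgroup.isOpen_mono h2 (hu'.1.2 j)
      have h6 : (π ⁻¹' {g : G | ∀ a b : Fin n, ((ρd g : Matrix (Fin n) (Fin n) Q.A) - 1) a b ∈
          maximalIdeal Q.A ^ j}) = ((Nsub ρQ (maximalIdeal Q.A ^ j) : Subgroup G') : Set G') := by
        ext g
        show (∀ a b : Fin n, ((ρd (π g) : Matrix (Fin n) (Fin n) Q.A) - 1) a b ∈ maximalIdeal Q.A ^ j) ↔ _
        rw [hd]
        rfl
      rw [h6]
      exact h1
  obtain ⟨h, ⟨hh1, hh2⟩, -⟩ := hu.2 Q ρd hlift
  -- `f` kills `I`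
  obtain ⟨M, hM, hMf⟩ := hf2
  have hfI : ∀ x ∈ I, f x = 0 := by
    have h1 : I ≤ RingHom.ker (f : R'.A →+* R.A) := by
      rw [hI, Ideal.span_le]
      rintro x ⟨g, hg, a, b, rfl⟩
      have h2 := hMf g
      rw [MonoidHom.comp_apply, MonoidHom.mem_ker.1 hg, map_one, MonoidHom.comp_apply] at h2
      have h3 : Matrix.GeneralLinearGroup.map (f : R'.A →+* R.A) (ρu' g) = 1 := by
        have h4 : M⁻¹ * (M * Matrix.GeneralLinearGroup.map (f : R'.A →+* R.A) (ρu' g) * M⁻¹) * M = 1 := by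
          rw [← h2]; group
        simpa [mul_assoc] using h4
      have h5 : f ((ρu' g : Matrix (Fin n) (Fin n) R'.A) a b) = (1 : Matrix (Fin n) (Fin n) R.A) a b := by
        have h6 := congrArg (fun N : GL (Fin n) R.A => (N : Matrix (Fin n) (Fin n) R.A) a b) h3
        exact h6
      show f (((ρu' g : Matrix (Fin n) (Fin n) R'.A) - 1) a b) = 0
      rw [Matrix.sub_apply, map_sub, h5, sub_eq_zero]
      by_cases hab : a = b
      · subst hab; simp
      · simp [Matrix.one_apply_ne hab]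
    exact fun x hx => h1 hx
  obtain ⟨fb, hfb⟩ := hqf R f hfI
  have hfbres : ∀ x, R.res (fb x) = Q.res x := by
    intro x
    obtain ⟨y, rfl⟩ := hqs x
    rw [hfb, hf1, hqr]
  -- `fb ∘ h = id`
  have hst : StrictEquiv R ((Matrix.GeneralLinearGroup.map (fb : Q.A →+* R.A)).comp ρd) ρu := by
    refine ⟨M, hM, fun g => ?_⟩
    obtain ⟨g', rfl⟩ := hπ g
    have h1 := hMf g'
    rw [MonoidHom.comp_apply] at h1
    have h5 : ((Matrix.GeneralLinearGroup.map (fb : Q.A →+* R.A)).comp ρd) (π g') =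
        ((Matrix.GeneralLinearGroup.map (f : R'.A →+* R.A)).comp ρu') g' := by
      rw [MonoidHom.comp_apply, hd]
      ext a b
      exact hfb _
    rw [h1, h5]
  have hcomp : StrictEquiv R ((Matrix.GeneralLinearGroup.map ((fb.comp h : R.A →ₐ[WittVector p k] R.A) :
      R.A →+* R.A)).comp ρu) ρu := by
    have h1 := strict_map fb hfbres hh2
    exact strict_trans h1 hst
  obtain ⟨φ, -, hφ⟩ := hu.2 R ρu hu.1
  have e1 : fb.comp h = φ := hφ _ ⟨fun x => by
    rw [AlgHom.comp_apply, hfbres, hh1], hcomp⟩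
  have e2 : AlgHom.id (WittVector p k) R.A = φ := hφ _ ⟨fun x => rfl, ⟨1, by rw [map_one], fun g => by
    rw [one_mul, inv_one, mul_one]
    rfl⟩⟩
  refine ⟨f, fun y => ?_⟩
  obtain ⟨x, hx⟩ := hqs (h y)
  refine ⟨x, ?_⟩
  rw [← hfb, hx]
  have h1 : (fb.comp h) y = y := by rw [e1, ← e2]; rfl
  exact h1

/-- the dimensions -/
theorem dim_mono (π : G' →* G) (hπ : Function.Surjective π) (hq : IsQuotientMap π)
    (ρbar : G →* GL (Fin n) k) (R : CNL p k) (ρu : G →* GL (Fin n) R.A) (hu : IsUniversal ρbar R ρu)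
    (R' : CNL p k) (ρu' : G' →* GL (Fin n) R'.A) (hu' : IsUniversal (ρbar.comp π) R' ρu') :
    ringKrullDim (R.A ⧸ Ideal.span {(p : R.A)}) ≤ ringKrullDim (R'.A ⧸ Ideal.span {(p : R'.A)}) := by
  obtain ⟨f, hf⟩ := surj π hπ hq ρbar R ρu hu R' ρu' hu'
  have h1 : Ideal.span {(p : R'.A)} ≤ (Ideal.span {(p : R.A)}).comap (f : R'.A →+* R.A) := by
    rw [Ideal.span_le, Set.singleton_subset_iff]
    show (f : R'.A →+* R.A) (p : R'.A) ∈ Ideal.span {(p : R.A)}
    rw [map_natCast]
    exact Ideal.subset_span rfl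
  refine ringKrullDim_le_of_surjective (Ideal.quotientMap _ (f : R'.A →+* R.A) h1) ?_
  intro y
  obtain ⟨y, rfl⟩ := Ideal.Quotient.mk_surjective y
  obtain ⟨x, rfl⟩ := hf y
  exact ⟨Ideal.Quotient.mk _ x, rfl⟩

end Pool.Agent.Y808.MZD
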