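import Pool.Agent.W566.MZ.Gal
import Pool.Agent.W294.MZ.Strong
import Pool.Agent.Y808.MZ.Def

/-!
# Restriction to a smaller Galois extension, and enlarging `S`
-/

set_option autoImplicit false

namespace Pool.Agent.Y808.MZD

open NumberField IsDedekindDomain MZ Topology

section res

variable {F E₁ E₂ : Type} [Field F] [Field E₁] [Field E₂] [Algebra F E₁] [Algebra F E₂]
  [Algebra E₁ E₂] [IsScalarTower F E₁ E₂]

theorem exists_res [IsGalois F E₁] [IsGalois F E₂] :
    ∃ π : Gal(E₂/F) →* Gal(E₁/F), Function.Surjective π ∧ IsQuotientMap π ∧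
      (∀ g x, algebraMap E₁ E₂ (π g x) = g (algebraMap E₁ E₂ x)) ∧
      ∀ w : InfinitePlace E₁, ∃ w' : InfinitePlace E₂, w'.comap (algebraMap E₁ E₂) = w ∧
        (MulAction.stabilizer Gal(E₂/F) w').map π = MulAction.stabilizer Gal(E₁/F) w := by
  set π : Gal(E₂/F) →* Gal(E₁/F) := AlgEquiv.restrictNormalHom E₁ with hπ
  have hs : Function.Surjective π := AlgEquiv.restrictNormalHom_surjective E₂
  have hc : ∀ g x, algebraMap E₁ E₂ (π g x) = g (algebraMap E₁ E₂ x) :=
    fun g x => AlgEquiv.restrictNormal_commutes g E₁ x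
  have hint : Algebra.IsIntegral F E₂ := Algebra.IsAlgebraic.isIntegral
  have hint1 : Algebra.IsIntegral F E₁ := Algebra.IsAlgebraic.isIntegral
  have hcont : Continuous π := by
    refine continuous_of_stab π fun x => ?_
    have h1 : {q : Gal(E₂/F) | π q x = x} = {q : Gal(E₂/F) | q (algebraMap E₁ E₂ x) = algebraMap E₁ E₂ x} := by
      ext q
      constructor
      · intro h
        show q (algebraMap E₁ E₂ x) = algebraMap E₁ E₂ x
        rw [← hc]
        exact congrArg _ h
      · intro h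
        apply (algebraMap E₁ E₂).injective
        rw [hc]
        exact h
    rw [h1]
    exact isOpen_stab _
  have : T2Space Gal(E₁/F) := krullTopology_t2
  have halg : Algebra.IsAlgebraic E₁ E₂ := Algebra.IsAlgebraic.tower_top (K := F) E₁
  have hgal : IsGalois E₁ E₂ := IsGalois.tower_top_of_isGalois F E₁ E₂
  refine ⟨π, hs, hcont.isClosedMap.isQuotientMap hcont hs, hc, fun w => ?_⟩
  obtain ⟨w', hw'⟩ := InfinitePlace.comap_surjective (k := E₁) (K := E₂) w
  refine ⟨w', hw', ?_⟩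
  -- compatibility of the actions
  have hact : ∀ (g : Gal(E₂/F)) (u : InfinitePlace E₂),
      (g • u).comap (algebraMap E₁ E₂) = π g • (u.comap (algebraMap E₁ E₂)) := by
    intro g u
    rw [InfinitePlace.smul_eq_comap, InfinitePlace.smul_eq_comap]
    ext x
    simp only [InfinitePlace.comap_apply]
    show u (g.symm (algebraMap E₁ E₂ x)) = u (algebraMap E₁ E₂ ((π g).symm x))
    congr 1
    have h1 := hc g⁻¹ x
    rw [map_inv] at h1
    exact h1.symm
  ext σ
  rw [Subgroup.mem_map]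
  constructor
  · rintro ⟨g, hg, rfl⟩
    rw [MulAction.mem_stabilizer_iff] at hg ⊢
    rw [← hw']
    show π g • (w'.comap (algebraMap E₁ E₂)) = _
    rw [← hact, hg]
  · intro hσ
    rw [MulAction.mem_stabilizer_iff] at hσ
    obtain ⟨g, rfl⟩ := hs σ
    have h1 : (g • w').comap (algebraMap E₁ E₂) = w'.comap (algebraMap E₁ E₂) := by
      rw [hact]
      have h2 : w'.comap (algebraMap E₁ E₂) = w := hw'
      rw [h2]
      exact hσ
    obtain ⟨τ, hτ⟩ := InfinitePlace.exists_smul_eq_of_comap_eq (k := E₁) h1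
    set τ' : Gal(E₂/F) := jR F E₁ E₂ τ with hτ'
    have h3 : τ' • (g • w') = w' := (show τ' • (g • w') = τ • (g • w') from rfl).trans hτ
    have h4 : π τ' = 1 := by
      ext x
      apply (algebraMap E₁ E₂).injective
      rw [hc, hτ', jR_apply, AlgEquiv.commutes]
      rfl
    refine ⟨τ' * g, ?_, by rw [map_mul, h4, one_mul]⟩
    rw [MulAction.mem_stabilizer_iff, mul_smul, h3]

end res

section incl

variable {F Ω : Type} [Field F] [Field Ω] [Algebra F Ω]

theorem exists_res' {E₁ E₂ : IntermediateField F Ω} (h : E₁ ≤ E₂) [IsGalois F E₁]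
    [IsGalois F E₂] :
    ∃ π : Gal(E₂/F) →* Gal(E₁/F), Function.Surjective π ∧ IsQuotientMap π ∧
      (∀ (g : Gal(E₂/F)) (x : E₁) (y : E₂), (x : Ω) = y → (π g x : Ω) = g y) ∧
      ∃ W : InfinitePlace E₁ → InfinitePlace E₂, ∀ w,
        (W w).comap (algebraMap F E₂) = w.comap (algebraMap F E₁) ∧
        (MulAction.stabilizer Gal(E₂/F) (W w)).map π = MulAction.stabilizer Gal(E₁/F) w := by
  let _ : Algebra E₁ E₂ := (IntermediateField.inclusion h).toRingHom.toAlgebra
  have : IsScalarTower F E₁ E₂ := IsScalarTower.of_algebraMap_eq fun x => rfl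
  obtain ⟨π, hs, hq, hcm, hst⟩ := exists_res (F := F) (E₁ := E₁) (E₂ := E₂)
  choose W hw1 hw2 using hst
  refine ⟨π, hs, hq, fun g x y hxy => ?_, W, fun w => ⟨?_, hw2 w⟩⟩
  · have h1 := congrArg (fun y : E₂ => (y : Ω)) (hcm g x)
    have h2 : algebraMap E₁ E₂ x = y := Subtype.ext hxy
    rw [h2] at h1
    exact h1
  have h5 : (W w).comap (algebraMap F E₂) =
      ((W w).comap (algebraMap E₁ E₂)).comap (algebraMap F E₁) := by
    rw [IsScalarTower.algebraMap_eq F E₁ E₂]
    rfl
  rw [h5, hw1]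

end incl

section S

variable {F Ω : Type} [Field F] [NumberField F] [Field Ω] [Algebra F Ω] [IsAlgClosure F Ω]

omit [NumberField F] [IsAlgClosure F Ω] in
theorem FSmax_mono {S S' : Set (HeightOneSpectrum (𝓞 F))} (h : S ⊆ S') :
    (FSmax S : IntermediateField F Ω) ≤ FSmax S' := by
  unfold FSmax
  refine iSup_le fun K => ?_
  exact le_iSup_of_le (⟨K.1, K.2.1, fun w hw => K.2.2 w fun v hv => hw v (h hv)⟩ :
    {K : IntermediateField F Ω // FiniteDimensional F K ∧ UnramifiedOutside S' K}) le_rfl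

omit [NumberField F] [IsAlgClosure F Ω] in
/-- invariants under the image of a subgroup -/
theorem ad0Inv_map {k : Type} [Field k] {n : ℕ} {G G' : Type} [Group G] [Group G']
    (π : G' →* G) (ρbar : G →* GL (Fin n) k) (D : Subgroup G') :
    ad0Inv (ρbar.comp π) D = ad0Inv ρbar (D.map π) := by
  ext X
  constructor
  · rintro ⟨h1, h2⟩
    refine ⟨h1, ?_⟩
    rintro _ ⟨g, hg, rfl⟩
    exact h2 g hg
  · rintro ⟨h1, h2⟩
    exact ⟨h1, fun g hg => h2 (π g) ⟨g, hg, rfl⟩⟩

/-- `δ` does not change -/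
theorem delta_eq {S S' : Set (HeightOneSpectrum (𝓞 F))}
    {k : Type} [Field k] {n : ℕ} (ρbar : GFS Ω S →* GL (Fin n) k)
    (w : InfinitePlace F → InfinitePlace (FSmax S : IntermediateField F Ω))
    (π : GFS Ω S' →* GFS Ω S)
    (w' : InfinitePlace F → InfinitePlace (FSmax S' : IntermediateField F Ω))
    (h : ∀ v, (MulAction.stabilizer (GFS Ω S') (w' v)).map π =
      MulAction.stabilizer (GFS Ω S) (w v)) :
    delta S' (ρbar.comp π) w' = delta S ρbar w := by
  unfold delta
  congr 1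
  refine Finset.sum_congr rfl fun v _ => ?_
  rw [ad0Inv_map, h]

/-- **Enlarging `S`.** -/
theorem enlarge {S S' : Set (HeightOneSpectrum (𝓞 F))} (h : S ⊆ S') (hS' : S'.Finite)
    {k : Type} [Field k] [Finite k] [CharP k 2] {n : ℕ} (ρbar : GFS Ω S →* GL (Fin n) k)
    (w : InfinitePlace F → InfinitePlace (FSmax S : IntermediateField F Ω))
    (hc : IsCounter F Ω S 2 k n ρbar w) :
    ∃ (π : GFS Ω S' →* GFS Ω S)
      (w' : InfinitePlace F → InfinitePlace (FSmax S' : IntermediateField F Ω)),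
      Function.Surjective π ∧
      (∀ (g : GFS Ω S') (x : (FSmax S : IntermediateField F Ω))
        (y : (FSmax S' : IntermediateField F Ω)), (x : Ω) = y → (π g x : Ω) = g y) ∧
      IsCounter F Ω S' 2 k n (ρbar.comp π) w' := by
  obtain ⟨⟨hn, hcop, hSf, hS2, hop, hirr, hw⟩, hδ, ⟨R, ρu, hu⟩, hR⟩ := hc
  have : IsGalois F (FSmax S : IntermediateField F Ω) := Pool.Agent.W178.MZK.K7 F Ω S
  have : IsGalois F (FSmax S' : IntermediateField F Ω) := Pool.Agent.W178.MZK.K7 F Ω S'
  obtain ⟨π, hs, hq, hcm, W, hW⟩ := exists_res' (F := F) (Ω := Ω) (FSmax_mono (Ω := Ω) h)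
  have hopen : IsOpen ((ρbar.comp π).ker : Set (GFS Ω S')) := hop.preimage hq.continuous
  have hirr' : AbsIrred (ρbar.comp π) := by
    intro V hV
    refine hirr V fun g x hx => ?_
    obtain ⟨g', rfl⟩ := hs g
    exact hV g' x hx
  have hS2' : ∀ v : HeightOneSpectrum (𝓞 F), ((2 : ℕ) : 𝓞 F) ∈ v.asIdeal → v ∈ S' :=
    fun v hv => h (hS2 v hv)
  refine ⟨π, fun v => W (w v), hs, hcm,
    ⟨hn, hcop, hS', hS2', hopen, hirr', fun v => (hW (w v)).1.trans (hw v)⟩, ?_, ?_, ?_⟩
  · rw [← hδ]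
    exact delta_eq ρbar w π _ fun v => (hW (w v)).2
  · exact MZEX.stmEx F Ω S' hS' (fun v hv => hS2' v (by exact_mod_cast hv)) k n hn _ hopen hirr'
  · intro R' ρu' hu'
    exact (hR R ρu hu).trans (dim_mono π hs hq ρbar R ρu hu R' ρu' hu')

end S

end Pool.Agent.Y808.MZD
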